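import Mathlib

/-!
Cayley graphs, word length, retreat depth.
-/

set_option autoImplicit false

namespace Pool.Agent.X185.RD

section defs

variable {G : Type*} [Group G]

/-- The Cayley graph of `G` with respect to `S`: two distinct elements are adjacent when they
differ by right multiplication by an element of `S` or the inverse of one. -/
def cayleyGraph (S : Set G) : SimpleGraph G :=
  SimpleGraph.fromRel (fun a b : G => a⁻¹ * b ∈ S)

/-- Word length: the distance to `1` in the Cayley graph. -/
noncomputable def wordLength (S : Set G) (g : G) : ℕ := (cayleyGraph S).dist 1 g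

/-- The complement of the ball `B(n-1)`. -/
def outside (S : Set G) (n : ℕ) : Set G := {g | n ≤ wordLength S g}

/-- `g` lies in an infinite connected component of the complement of the ball `B(n-1)`. -/
def InInfiniteComponent (S : Set G) (n : ℕ) (g : G) : Prop :=
  ∃ h : g ∈ outside S n,
    (((cayleyGraph S).induce (outside S n)).connectedComponentMk ⟨g, h⟩).supp.Infinite

/-- The retreat depth of `g`: the least `d` such that `g` lies in an infinite component of the
complement of `B(|g| - d - 1)`. -/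
noncomputable def retreatDepth (S : Set G) (g : G) : ℕ∞ :=
  sInf {x : ℕ∞ | ∃ d : ℕ, x = d ∧ InInfiniteComponent S (wordLength S g - d) g}

/-- Bounded retreat depth: `sup rd(g) < ∞`, the supremum over all elements. -/
def BoundedRetreatDepth (S : Set G) : Prop :=
  ∃ R : ℕ, ∀ g : G, retreatDepth S g ≤ R

end defs

/-! ### Words -/

section words

variable {G : Type*} [Group G]

/-- products of at most `n` elements of `S`. -/
def W (S : Set G) : ℕ → Set G
  | 0 => {1}
  | n + 1 => {g | ∃ h ∈ W S n, g = h ∨ ∃ s ∈ S, g = h * s}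

theorem W_succ_of {S : Set G} {n : ℕ} {g : G} (h : g ∈ W S n) : g ∈ W S (n + 1) :=
  ⟨g, h, Or.inl rfl⟩

theorem W_mono {S : Set G} {n k : ℕ} (h : n ≤ k) {g : G} (hg : g ∈ W S n) : g ∈ W S k := by
  induction h with
  | refl => exact hg
  | step _ ih => exact W_succ_of ih

theorem W_one {S : Set G} (n : ℕ) : (1 : G) ∈ W S n := W_mono (Nat.zero_le n) rfl

theorem W_gen {S : Set G} {s : G} (hs : s ∈ S) : s ∈ W S 1 :=
  ⟨1, rfl, Or.inr ⟨s, hs, (one_mul s).symm⟩⟩

theorem W_mul {S : Set G} {n k : ℕ} {g h : G} (hg : g ∈ W S n) (hh : h ∈ W S k) :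
    g * h ∈ W S (n + k) := by
  induction k generalizing h with
  | zero =>
    have : h = 1 := hh
    subst this
    simpa using hg
  | succ k ih =>
    obtain ⟨h', hh', e | ⟨s, hs, e⟩⟩ := hh
    · subst e
      exact W_succ_of (ih hh')
    · subst e
      exact ⟨g * h', ih hh', Or.inr ⟨s, hs, (mul_assoc _ _ _).symm⟩⟩

theorem W_inv {S : Set G} (hS : ∀ s ∈ S, s⁻¹ ∈ S) {n : ℕ} {g : G} (hg : g ∈ W S n) :
    g⁻¹ ∈ W S n := by
  induction n generalizing g with
  | zero =>
    have : g = 1 := hg
    subst this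
    simpa using W_one 0
  | succ n ih =>
    obtain ⟨h', hh', e | ⟨s, hs, e⟩⟩ := hg
    · subst e
      exact W_succ_of (ih hh')
    · subst e
      rw [mul_inv_rev, Nat.add_comm]
      exact W_mul (W_gen (hS s hs)) (ih hh')

theorem W_pow {S : Set G} {s : G} (hs : s ∈ S) (n : ℕ) : s ^ n ∈ W S n := by
  induction n with
  | zero => simpa using W_one 0
  | succ n ih => rw [pow_succ]; exact W_mul ih (W_gen hs)

theorem W_zpow {S : Set G} (hS : ∀ s ∈ S, s⁻¹ ∈ S) {s : G} (hs : s ∈ S) (z : ℤ) :
    s ^ z ∈ W S z.natAbs := by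
  obtain ⟨n, rfl | rfl⟩ := z.eq_nat_or_neg
  · simpa using W_pow hs n
  · simpa using W_inv hS (W_pow hs n)

theorem W_exists {S : Set G} (hS : ∀ s ∈ S, s⁻¹ ∈ S) (hgen : Subgroup.closure S = ⊤) (g : G) :
    ∃ n, g ∈ W S n := by
  have hg : g ∈ Subgroup.closure S := by rw [hgen]; trivial
  induction hg using Subgroup.closure_induction with
  | mem x hx => exact ⟨1, W_gen hx⟩
  | one => exact ⟨0, W_one 0⟩
  | mul x y _ _ hx hy =>
    obtain ⟨n, hn⟩ := hx
    obtain ⟨k, hk⟩ := hy
    exact ⟨n + k, W_mul hn hk⟩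
  | inv x _ hx =>
    obtain ⟨n, hn⟩ := hx
    exact ⟨n, W_inv hS hn⟩

theorem adj_iff {S : Set G} (hS : ∀ s ∈ S, s⁻¹ ∈ S) {g h : G} :
    (cayleyGraph S).Adj g h ↔ g ≠ h ∧ ∃ s ∈ S, h = g * s := by
  unfold cayleyGraph
  rw [SimpleGraph.fromRel_adj]
  constructor
  · rintro ⟨h1, h2 | h2⟩
    · exact ⟨h1, _, h2, by group⟩
    · exact ⟨h1, _, hS _ h2, by group⟩
  · rintro ⟨h1, s, hs, rfl⟩
    exact ⟨h1, Or.inl (by simpa using hs)⟩

theorem walk_of_W {S : Set G} (hS : ∀ s ∈ S, s⁻¹ ∈ S) {n : ℕ} {g : G} (hg : g ∈ W S n) :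
    ∃ p : (cayleyGraph S).Walk 1 g, p.length ≤ n := by
  induction n generalizing g with
  | zero =>
    have : g = 1 := hg
    subst this
    exact ⟨SimpleGraph.Walk.nil, le_rfl⟩
  | succ n ih =>
    obtain ⟨h', hh', e | ⟨s, hs, e⟩⟩ := hg
    · subst e
      obtain ⟨p, hp⟩ := ih hh'
      exact ⟨p, hp.trans (Nat.le_succ n)⟩
    · obtain ⟨p, hp⟩ := ih hh'
      by_cases hne : h' = g
      · subst hne
        exact ⟨p, hp.trans (Nat.le_succ n)⟩
      · refine ⟨p.concat ((adj_iff hS).2 ⟨hne, s, hs, e⟩), ?_⟩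
        rw [SimpleGraph.Walk.length_concat]
        omega

theorem W_of_walk {S : Set G} (hS : ∀ s ∈ S, s⁻¹ ∈ S) {u v : G}
    (p : (cayleyGraph S).Walk u v) : ∀ k, u ∈ W S k → v ∈ W S (k + p.length) := by
  induction p with
  | nil => intro k h; simpa using h
  | @cons u v' w h p ih =>
    intro k hu
    obtain ⟨_, s, hs, e⟩ := (adj_iff hS).1 h
    have : v' ∈ W S (k + 1) := ⟨u, hu, Or.inr ⟨s, hs, e⟩⟩
    have := ih _ this
    rw [SimpleGraph.Walk.length_cons]
    rwa [show k + 1 + p.length = k + (p.length + 1) by omega] at this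

theorem wordLength_le {S : Set G} (hS : ∀ s ∈ S, s⁻¹ ∈ S) {n : ℕ} {g : G} (hg : g ∈ W S n) :
    wordLength S g ≤ n := by
  obtain ⟨p, hp⟩ := walk_of_W hS hg
  exact (SimpleGraph.dist_le p).trans hp

theorem mem_W_wordLength {S : Set G} (hS : ∀ s ∈ S, s⁻¹ ∈ S)
    (hgen : Subgroup.closure S = ⊤) (g : G) : g ∈ W S (wordLength S g) := by
  obtain ⟨n, hn⟩ := W_exists hS hgen g
  obtain ⟨p, -⟩ := walk_of_W hS hn
  obtain ⟨q, hq⟩ := (SimpleGraph.Walk.reachable p).exists_walk_length_eq_dist
  have := W_of_walk hS q 0 rfl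
  rw [Nat.zero_add, hq] at this
  exact this

/-- A trap: if the connected piece around `g` cannot leave the finite set `T` without passing
through elements of length `< |g| - R`, then the retreat depth of `g` is more than `R`. -/
theorem retreatDepth_gt {S : Set G} (hS : ∀ s ∈ S, s⁻¹ ∈ S) {g : G} {R : ℕ} {T : Set G}
    (hT : T.Finite) (hg : g ∈ T)
    (hex : ∀ h ∈ T, ∀ s ∈ S, h * s ∉ T → wordLength S h + R < wordLength S g) :
    ¬ retreatDepth S g ≤ R := by
  intro hle
  have key : ∀ d : ℕ, d ≤ R → ¬ InInfiniteComponent S (wordLength S g - d) g := by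
    rintro d hd ⟨h0, hinf⟩
    apply hinf
    have hsub : ∀ v : outside S (wordLength S g - d),
        ((cayleyGraph S).induce (outside S (wordLength S g - d))).Reachable ⟨g, h0⟩ v →
        (v : G) ∈ T := by
      rintro v ⟨p⟩
      have : ∀ (u v : outside S (wordLength S g - d))
          (_ : ((cayleyGraph S).induce (outside S (wordLength S g - d))).Walk u v),
          (u : G) ∈ T → (v : G) ∈ T := by
        intro u v p
        induction p with
        | nil => exact id
        | @cons u v' w h p ih =>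
          intro hu
          apply ih
          rw [SimpleGraph.induce_adj] at h
          obtain ⟨_, s, hs, e⟩ := (adj_iff hS).1 h
          by_contra hnot
          rw [e] at hnot
          have h1 := hex _ hu s hs hnot
          have h2 : wordLength S g - d ≤ wordLength S (u : G) := u.2
          omega
      exact this _ _ p hg
    refine Set.Finite.of_finite_image (f := Subtype.val) (hT.subset ?_)
      Subtype.val_injective.injOn
    rintro _ ⟨v, hv, rfl⟩
    have hv' : ((cayleyGraph S).induce (outside S (wordLength S g - d))).connectedComponentMk v =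
      ((cayleyGraph S).induce (outside S (wordLength S g - d))).connectedComponentMk ⟨g, h0⟩ := hv
    exact hsub v (SimpleGraph.ConnectedComponent.exact hv').symm
  have h1 : ((R : ℕ∞) + 1) ≤ retreatDepth S g := by
    apply le_sInf
    rintro x ⟨d, rfl, hd⟩
    by_contra hlt
    rw [not_le] at hlt
    have : d < R + 1 := by exact_mod_cast hlt
    exact key d (by omega) hd
  have h2 := h1.trans hle
  have h3 : R + 1 ≤ R := by exact_mod_cast h2
  omega

end words

end Pool.Agent.X185.RD
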