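import Pool.Agent.X185.RD.Main

/-!
The groups `G_{p,q}` and the presented group `BS(1,m)`.
-/

set_option autoImplicit false

namespace Pool.Agent.X185.RD

/-- The ring `A = ℤ[p/q, q/p] ⊆ ℚ`. -/
def RingA (p q : ℕ) : Subring ℚ := Subring.closure {(p : ℚ) / q, (q : ℚ) / p}

theorem zpow_mem_A {p q : ℕ} (k : ℤ) : ((p : ℚ) / q) ^ k ∈ RingA p q := by
  obtain ⟨n, rfl | rfl⟩ := k.eq_nat_or_neg
  · rw [zpow_natCast]
    exact pow_mem (Subring.subset_closure (by simp)) n
  · rw [zpow_neg, zpow_natCast, ← inv_pow, inv_div]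
    exact pow_mem (Subring.subset_closure (by simp)) n

/-- The set of elements `(x, k)` of the group `G_{p,q} = A ⋊ ℤ`. -/
@[ext] structure Gpq (p q : ℕ) where
  x : RingA p q
  k : ℤ

section

variable {p q : ℕ}

instance : Mul (Gpq p q) :=
  ⟨fun g h => ⟨⟨(g.x : ℚ) + ((p : ℚ) / q) ^ g.k * h.x,
    add_mem g.x.2 (mul_mem (zpow_mem_A g.k) h.x.2)⟩, g.k + h.k⟩⟩

instance : One (Gpq p q) := ⟨⟨0, 0⟩⟩

instance : Inv (Gpq p q) :=
  ⟨fun g => ⟨⟨-(((p : ℚ) / q) ^ (-g.k) * g.x), neg_mem (mul_mem (zpow_mem_A _) g.x.2)⟩, -g.k⟩⟩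

theorem mul_x (g h : Gpq p q) : ((g * h).x : ℚ) = g.x + ((p : ℚ) / q) ^ g.k * h.x := rfl
theorem mul_k (g h : Gpq p q) : (g * h).k = g.k + h.k := rfl
theorem one_x : ((1 : Gpq p q).x : ℚ) = 0 := rfl
theorem one_k : (1 : Gpq p q).k = 0 := rfl
theorem inv_x (g : Gpq p q) : ((g⁻¹).x : ℚ) = -(((p : ℚ) / q) ^ (-g.k) * g.x) := rfl
theorem inv_k (g : Gpq p q) : (g⁻¹).k = -g.k := rfl

theorem Gpq.ext' {g h : Gpq p q} (h1 : (g.x : ℚ) = h.x) (h2 : g.k = h.k) : g = h :=
  Gpq.ext (Subtype.ext h1) h2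

end

/-- The group `G_{p,q} = A ⋊ ℤ` with product `(x,k)(y,m) = (x + (p/q)^k y, k + m)`. -/
instance (p q : ℕ) [NeZero p] [NeZero q] : Group (Gpq p q) where
  mul_assoc g h l := by
    have h0 : ((p : ℚ) / q) ≠ 0 :=
      div_ne_zero (by exact_mod_cast NeZero.ne p) (by exact_mod_cast NeZero.ne q)
    apply Gpq.ext'
    · simp only [mul_x, mul_k]
      rw [zpow_add₀ h0]; ring
    · simp only [mul_k]; ring
  one_mul g := by
    apply Gpq.ext'
    · simp [mul_x, one_x, one_k]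
    · simp [mul_k, one_k]
  mul_one g := by
    apply Gpq.ext'
    · simp [mul_x, one_x]
    · simp [mul_k, one_k]
  inv_mul_cancel g := by
    apply Gpq.ext'
    · simp [mul_x, inv_x, inv_k, one_x]
    · simp [mul_k, inv_k, one_k]

section

variable (p q : ℕ)

/-- The generator `a = (1, 0)`. -/
def ga : Gpq p q := ⟨1, 0⟩

/-- The generator `t = (0, 1)`. -/
def gt : Gpq p q := ⟨0, 1⟩

end

/-! ### The model for `G_{m,1}` and `G_{1,m}` -/

theorem form_of_mem {m : ℕ} (hm : 2 ≤ m) {p q : ℕ}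
    (hpq : (p = m ∧ q = 1) ∨ (p = 1 ∧ q = m)) {x : ℚ} (hx : x ∈ RingA p q) :
    ∃ (z : ℤ) (i : ℕ), x = (m : ℚ) ^ (-(i : ℤ)) * z := by
  have hm0 : (m : ℚ) ≠ 0 := by positivity
  unfold RingA at hx
  induction hx using Subring.closure_induction with
  | mem x hx =>
    rcases hpq with ⟨rfl, rfl⟩ | ⟨rfl, rfl⟩
    · rcases hx with rfl | rfl
      · exact ⟨p, 0, by simp⟩
      · exact ⟨1, 1, by simp⟩
    · rcases hx with rfl | rfl
      · exact ⟨1, 1, by simp⟩
      · exact ⟨q, 0, by simp⟩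
  | zero => exact ⟨0, 0, by simp⟩
  | one => exact ⟨1, 0, by simp⟩
  | add x y _ _ h1 h2 =>
    obtain ⟨z, i, rfl⟩ := h1
    obtain ⟨w, k, rfl⟩ := h2
    refine ⟨(m : ℤ) ^ k * z + (m : ℤ) ^ i * w, i + k, ?_⟩
    push_cast
    rw [mul_add, neg_add, zpow_add₀ hm0]
    have e1 : (m : ℚ) ^ (-(k : ℤ)) * (m : ℚ) ^ k = 1 := by
      rw [← zpow_natCast, ← zpow_add₀ hm0]; simp
    have e2 : (m : ℚ) ^ (-(i : ℤ)) * (m : ℚ) ^ i = 1 := by
      rw [← zpow_natCast, ← zpow_add₀ hm0]; simp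
    linear_combination -((m : ℚ) ^ (-(i : ℤ)) * z) * e1 - ((m : ℚ) ^ (-(k : ℤ)) * w) * e2
  | neg x _ h1 =>
    obtain ⟨z, i, rfl⟩ := h1
    exact ⟨-z, i, by push_cast; ring⟩
  | mul x y _ _ h1 h2 =>
    obtain ⟨z, i, rfl⟩ := h1
    obtain ⟨w, k, rfl⟩ := h2
    refine ⟨z * w, i + k, ?_⟩
    push_cast
    rw [neg_add, zpow_add₀ hm0]
    ring

section

variable {p q : ℕ} [NeZero p] [NeZero q]

theorem gt_zpow (z : ℤ) : ((gt p q ^ z).x : ℚ) = 0 ∧ (gt p q ^ z).k = z := by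
  have h : ∀ n : ℕ, ((gt p q ^ n).x : ℚ) = 0 ∧ (gt p q ^ n).k = n := by
    intro n
    induction n with
    | zero => exact ⟨rfl, rfl⟩
    | succ n ih =>
      rw [pow_succ, mul_x, mul_k, ih.1, ih.2]
      constructor
      · simp [gt]
      · simp [gt]
  obtain ⟨n, rfl | rfl⟩ := z.eq_nat_or_neg
  · simpa using h n
  · rw [zpow_neg, zpow_natCast, inv_x, inv_k, (h n).1, (h n).2]
    simp

theorem ga_zpow (z : ℤ) : ((ga p q ^ z).x : ℚ) = z ∧ (ga p q ^ z).k = 0 := by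
  have h : ∀ n : ℕ, ((ga p q ^ n).x : ℚ) = n ∧ (ga p q ^ n).k = 0 := by
    intro n
    induction n with
    | zero => exact ⟨by simp [one_x], rfl⟩
    | succ n ih =>
      rw [pow_succ, mul_x, mul_k, ih.1, ih.2]
      constructor
      · simp [ga]
      · simp [ga]
  obtain ⟨n, rfl | rfl⟩ := z.eq_nat_or_neg
  · simpa using h n
  · rw [zpow_neg, zpow_natCast, inv_x, inv_k, (h n).1, (h n).2]
    simp

end

theorem closure_top {m : ℕ} (hm : 2 ≤ m) {p q : ℕ} [NeZero p] [NeZero q]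
    (hpq : (p = m ∧ q = 1) ∨ (p = 1 ∧ q = m)) :
    Subgroup.closure ({ga p q, gt p q} : Set (Gpq p q)) = ⊤ := by
  rw [eq_top_iff]
  intro g _
  obtain ⟨z, i, hz⟩ := form_of_mem hm hpq g.x.2
  have ha : ga p q ∈ Subgroup.closure ({ga p q, gt p q} : Set (Gpq p q)) :=
    Subgroup.subset_closure (by simp)
  have ht : gt p q ∈ Subgroup.closure ({ga p q, gt p q} : Set (Gpq p q)) :=
    Subgroup.subset_closure (by simp)
  rcases hpq with ⟨rfl, rfl⟩ | ⟨rfl, rfl⟩
  · have : g = gt p 1 ^ (-(i : ℤ)) * (ga p 1 ^ z * gt p 1 ^ ((i : ℤ) + g.k)) := by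
      apply Gpq.ext'
      · simp only [mul_x, (gt_zpow _).1, (gt_zpow _).2, (ga_zpow _).1]
        rw [hz]; simp
      · simp only [mul_k, (gt_zpow _).2, (ga_zpow _).2]; ring
    rw [this]
    exact mul_mem (zpow_mem ht _) (mul_mem (zpow_mem ha _) (zpow_mem ht _))
  · have : g = gt 1 q ^ (i : ℤ) * (ga 1 q ^ z * gt 1 q ^ (-(i : ℤ) + g.k)) := by
      apply Gpq.ext'
      · simp only [mul_x, (gt_zpow _).1, (gt_zpow _).2, (ga_zpow _).1]
        rw [hz]; simp
      · simp only [mul_k, (gt_zpow _).2, (ga_zpow _).2]; ring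
    rw [this]
    exact mul_mem (zpow_mem ht _) (mul_mem (zpow_mem ha _) (zpow_mem ht _))

/-- The model of `G_{m,1}`. -/
def modelL {m : ℕ} [NeZero m] (hm : 2 ≤ m) : Model (Gpq m 1) m (ga m 1) (gt m 1) where
  X g := g.x
  K g := g.k
  X_mul g h := by rw [mul_x]; simp
  K_mul g h := rfl
  X_a := by simp [ga]
  K_a := rfl
  X_t := by simp [gt]
  K_t := rfl
  inj g h h1 h2 := Gpq.ext' h1 h2
  gen := closure_top hm (Or.inl ⟨rfl, rfl⟩)

/-- The model of `G_{1,m}`, in which `t` is replaced by its inverse. -/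
def modelR {m : ℕ} [NeZero m] (hm : 2 ≤ m) : Model (Gpq 1 m) m (ga 1 m) (gt 1 m)⁻¹ where
  X g := g.x
  K g := -g.k
  X_mul g h := by rw [mul_x]; simp
  K_mul g h := by rw [mul_k]; ring
  X_a := by simp [ga]
  K_a := by simp [ga]
  X_t := by simp [inv_x, gt]
  K_t := by simp [inv_k, gt]
  inj g h h1 h2 := Gpq.ext' h1 (by simpa using h2)
  gen := by
    have h := closure_top hm (Or.inr (⟨rfl, rfl⟩ : (1 : ℕ) = 1 ∧ m = m))
    rw [eq_top_iff, ← h, Subgroup.closure_le]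
    rintro x (rfl | rfl)
    · exact Subgroup.subset_closure (by simp)
    · have : (gt 1 m)⁻¹ ∈ Subgroup.closure ({ga 1 m, (gt 1 m)⁻¹} : Set (Gpq 1 m)) :=
        Subgroup.subset_closure (by simp)
      simpa using inv_mem this

/-! ### The presented group -/

/-- The Baumslag-Solitar group `BS(1,m) = ⟨a, t | t a t⁻¹ = a ^ m⟩` (`a` is the generator
`false`, `t` is the generator `true`). -/
abbrev BS (m : ℕ) : Type :=
  PresentedGroup ({FreeGroup.of true * FreeGroup.of false * (FreeGroup.of true)⁻¹ *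
    (FreeGroup.of false ^ m)⁻¹} : Set (FreeGroup Bool))

/-- The generator `a`. -/
def bsa (m : ℕ) : BS m := PresentedGroup.of false

/-- The generator `t`. -/
def bst (m : ℕ) : BS m := PresentedGroup.of true

theorem bs_rel (m : ℕ) : bst m * bsa m * (bst m)⁻¹ = bsa m ^ m := by
  have h : (PresentedGroup.mk _ (FreeGroup.of true * FreeGroup.of false * (FreeGroup.of true)⁻¹ *
    (FreeGroup.of false ^ m)⁻¹) : BS m) = 1 :=
    PresentedGroup.one_of_mem (by simp)
  have h2 : bst m * bsa m * (bst m)⁻¹ * (bsa m ^ m)⁻¹ = 1 := h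
  exact mul_inv_eq_one.1 h2

theorem bs_rel' (m : ℕ) : bst m * bsa m = bsa m ^ m * bst m := by
  rw [← bs_rel]; group

theorem bs_gen (m : ℕ) : Subgroup.closure ({bsa m, bst m} : Set (BS m)) = ⊤ := by
  rw [eq_top_iff, ← PresentedGroup.closure_range_of, Subgroup.closure_le]
  rintro _ ⟨b, rfl⟩
  cases b
  · exact Subgroup.subset_closure (by simp [bsa])
  · exact Subgroup.subset_closure (by simp [bst])

/-- The map to `G_{m,1}`. -/
def bsHom (m : ℕ) [NeZero m] : BS m →* Gpq m 1 :=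
  PresentedGroup.toGroup (f := fun b => if b then gt m 1 else ga m 1) (by
    rintro r (rfl : r = _)
    simp only [map_mul, map_inv, map_pow, FreeGroup.lift_apply_of, if_true]
    simp only [Bool.false_eq_true, if_false]
    rw [mul_inv_eq_one]
    have e := ga_zpow (p := m) (q := 1) (m : ℤ)
    rw [zpow_natCast] at e
    apply Gpq.ext'
    · rw [e.1, mul_x, mul_x, mul_k, inv_x]
      simp [gt, ga]
    · rw [e.2, mul_k, mul_k, inv_k]
      simp [gt, ga])

theorem bsHom_a (m : ℕ) [NeZero m] : bsHom m (bsa m) = ga m 1 := by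
  unfold bsHom bsa
  rw [PresentedGroup.toGroup.of]
  simp

theorem bsHom_t (m : ℕ) [NeZero m] : bsHom m (bst m) = gt m 1 := by
  unfold bsHom bst
  rw [PresentedGroup.toGroup.of]
  simp

theorem bs_tpow (m j : ℕ) : bst m ^ j * bsa m = bsa m ^ (m ^ j) * bst m ^ j := by
  have h0 : ∀ k : ℕ, bst m * bsa m ^ k = bsa m ^ (m * k) * bst m := by
    intro k
    induction k with
    | zero => simp
    | succ k ih =>
      rw [pow_succ, ← mul_assoc, ih, mul_assoc, bs_rel', ← mul_assoc, ← pow_add]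
      congr 2
  induction j with
  | zero => simp
  | succ j ih =>
    rw [pow_succ', mul_assoc, ih, ← mul_assoc, h0, mul_assoc, ← pow_succ', ← pow_succ']

theorem bs_form (m : ℕ) (g : BS m) :
    ∃ (i j : ℕ) (k : ℤ), g = (bst m ^ i)⁻¹ * (bsa m ^ k * bst m ^ j) := by
  have hg : g ∈ Subgroup.closure ({bsa m, bst m} : Set (BS m)) := by rw [bs_gen]; trivial
  induction hg using Subgroup.closure_induction_right with
  | one => exact ⟨0, 0, 0, by simp⟩
  | mul_right x _ y hy ih =>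
    obtain ⟨i, j, k, rfl⟩ := ih
    rcases hy with rfl | rfl
    · refine ⟨i, j, k + (m ^ j : ℕ), ?_⟩
      rw [zpow_add, zpow_natCast]
      simp only [mul_assoc]
      rw [bs_tpow]
    · refine ⟨i, j + 1, k, ?_⟩
      rw [pow_succ]; simp only [mul_assoc]
  | mul_inv_cancel x _ y hy ih =>
    obtain ⟨i, j, k, rfl⟩ := ih
    rcases hy with rfl | rfl
    · refine ⟨i, j, k - (m ^ j : ℕ), ?_⟩
      rw [zpow_sub, zpow_natCast]
      simp only [mul_assoc]
      congr 2
      have h := bs_tpow m j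
      rw [eq_inv_mul_iff_mul_eq, ← mul_assoc, ← h, mul_assoc, mul_inv_cancel, mul_one]
    · cases j with
      | succ j =>
        refine ⟨i, j, k, ?_⟩
        rw [pow_succ]; group
      | zero =>
        refine ⟨i + 1, 0, m * k, ?_⟩
        have h : bst m * bsa m ^ k * (bst m)⁻¹ = bsa m ^ ((m : ℤ) * k) := by
          rw [← conj_zpow, bs_rel, zpow_mul, zpow_natCast (bsa m) m]
        rw [← h, pow_succ']
        simp only [pow_zero, mul_one]
        group

theorem bs_inj {m : ℕ} [NeZero m] : Function.Injective (bsHom m) := by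
  rw [injective_iff_map_eq_one]
  intro g hg
  obtain ⟨i, j, k, rfl⟩ := bs_form m g
  have hm0 : (m : ℚ) ≠ 0 := by exact_mod_cast NeZero.ne m
  rw [map_mul, map_mul, map_inv, map_pow, map_pow, map_zpow, bsHom_a, bsHom_t] at hg
  have ei := gt_zpow (p := m) (q := 1) (i : ℤ)
  have ej := gt_zpow (p := m) (q := 1) (j : ℤ)
  have ek := ga_zpow (p := m) (q := 1) k
  rw [zpow_natCast] at ei ej
  have h1 := congrArg (fun g : Gpq m 1 => (g.x : ℚ)) hg
  have h2 := congrArg (fun g : Gpq m 1 => g.k) hg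
  simp only [mul_x, mul_k, inv_x, inv_k, ei.1, ei.2, ej.1, ej.2, ek.1, ek.2, one_x, one_k] at h1 h2
  have hk : k = 0 := by
    simp only [mul_zero, neg_zero, zero_add, add_zero, Nat.cast_one, div_one] at h1
    rcases mul_eq_zero.1 h1 with h | h
    · exact absurd h (zpow_ne_zero _ hm0)
    · exact_mod_cast h
  have hij : i = j := by omega
  subst hk; subst hij
  simp

/-- The model of `BS(1,m)`. -/
noncomputable def modelBS {m : ℕ} [NeZero m] : Model (BS m) m (bsa m) (bst m) where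
  X g := (bsHom m g).x
  K g := (bsHom m g).k
  X_mul g h := by rw [map_mul, mul_x]; simp
  K_mul g h := by rw [map_mul]; rfl
  X_a := by rw [bsHom_a]; simp [ga]
  K_a := by rw [bsHom_a]; rfl
  X_t := by rw [bsHom_t]; simp [gt]
  K_t := by rw [bsHom_t]; rfl
  inj g h h1 h2 := bs_inj (Gpq.ext' h1 h2)
  gen := bs_gen m

end Pool.Agent.X185.RD
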