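import Pool.Agent.X185.RD.Model

/-!
A lower bound for the word length.
-/

set_option autoImplicit false

namespace Pool.Agent.X185.RD

/-- distance to the nearest integer. -/
def psi (z : ℚ) : ℚ := |z - round z|

theorem psi_add_int (z : ℚ) (n : ℤ) : psi (z + n) = psi z := by
  unfold psi
  rw [round_add_intCast]
  push_cast
  congr 1
  ring

theorem psi_add_le (z d : ℚ) : psi (z + d) ≤ psi z + |d| := by
  unfold psi
  calc |z + d - round (z + d)| ≤ |z + d - round z| := round_le _ _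
    _ = |(z - round z) + d| := by congr 1; ring
    _ ≤ _ := abs_add_le _ _

theorem psi_lower {y e : ℚ} {N : ℤ} (he : e = 1 ∨ e = -1) (hy0 : 0 ≤ y) (hy1 : y ≤ 1 / 2) :
    y ≤ psi (e * y + N) := by
  rw [psi_add_int]
  unfold psi
  by_cases h : round (e * y) = 0
  · rw [h]
    rcases he with rfl | rfl
    · simp [abs_of_nonneg hy0]
    · simp [abs_of_nonneg hy0]
  · have h1 : (1 : ℚ) ≤ |(round (e * y) : ℚ)| := by
      have : (1 : ℤ) ≤ |round (e * y)| := Int.one_le_abs h
      exact_mod_cast this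
    have h2 : |e * y| = y := by
      rcases he with rfl | rfl
      · simp [abs_of_nonneg hy0]
      · simp [abs_of_nonneg hy0]
    have h3 : |(round (e * y) : ℚ)| ≤ |e * y| + |e * y - round (e * y)| := by
      have := abs_sub_abs_le_abs_sub ((round (e * y) : ℚ)) (e * y)
      rw [abs_sub_comm] at this
      linarith
    rw [h2] at h3
    linarith

/-- The digit potential. -/
def hfun (m n j : ℕ) (x : ℚ) : ℚ :=
  ((m : ℚ) - 1) * ∑ i ∈ Finset.range n, psi (x * (m : ℚ) ^ ((j : ℤ) - (i + 1)))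

theorem hfun_zero (m n j : ℕ) : hfun m n j 0 = 0 := by
  unfold hfun psi
  simp

theorem hfun_step {m : ℕ} (hm : 2 ≤ m) (n j : ℕ) (x : ℚ) (k : ℤ) (s : ℚ)
    (hs : s = 1 ∨ s = -1) :
    hfun m n j (x + s * (m : ℚ) ^ k) ≤ hfun m n j x + 1 := by
  have hm0 : (0 : ℚ) < m := by positivity
  have hm1 : (1 : ℚ) < m := by exact_mod_cast hm
  -- telescoping majorant
  let F : ℕ → ℚ := fun i => min 1 ((m : ℚ) ^ (k - ((i : ℤ) - j)))
  have hF0 : ∀ i, 0 ≤ F i := fun i => le_min zero_le_one (by positivity)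
  have hF1 : ∀ i, F i ≤ 1 := fun i => min_le_left _ _
  have key : ∀ i ∈ Finset.range n,
      ((m : ℚ) - 1) * psi ((x + s * (m : ℚ) ^ k) * (m : ℚ) ^ ((j : ℤ) - (i + 1))) ≤
      ((m : ℚ) - 1) * psi (x * (m : ℚ) ^ ((j : ℤ) - (i + 1))) + (F i - F (i + 1)) := by
    intro i _
    have hexp : (m : ℚ) ^ k * (m : ℚ) ^ ((j : ℤ) - (i + 1)) = (m : ℚ) ^ (k - ((i : ℤ) + 1 - j)) := by
      rw [← zpow_add₀ hm0.ne']
      congr 1
      ring
    have e1 : (x + s * (m : ℚ) ^ k) * (m : ℚ) ^ ((j : ℤ) - (i + 1)) =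
        x * (m : ℚ) ^ ((j : ℤ) - (i + 1)) + s * (m : ℚ) ^ (k - ((i : ℤ) + 1 - j)) := by
      rw [← hexp]; ring
    rw [e1]
    by_cases hc : (i : ℤ) + 1 - j ≤ k
    · obtain ⟨r, hr⟩ := Int.eq_ofNat_of_zero_le (show 0 ≤ k - ((i : ℤ) + 1 - j) by omega)
      have e2 : s * (m : ℚ) ^ (k - ((i : ℤ) + 1 - j)) =
          (((if s = 1 then 1 else -1) * (m : ℤ) ^ r : ℤ) : ℚ) := by
        rw [hr]
        rcases hs with rfl | rfl
        · simp
        · norm_num
      rw [e2, psi_add_int]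
      have hFi : F i = 1 := by
        apply min_eq_left
        apply one_le_zpow₀ hm1.le
        omega
      have := hF1 (i + 1)
      linarith
    · have hFi : F i = (m : ℚ) ^ (k - ((i : ℤ) - j)) := by
        apply min_eq_right
        apply zpow_le_one_of_nonpos₀ hm1.le
        omega
      have hFi1 : F (i + 1) ≤ (m : ℚ) ^ (k - ((i : ℤ) + 1 - j)) := by
        have := min_le_right (1 : ℚ) ((m : ℚ) ^ (k - (((i + 1 : ℕ) : ℤ) - j)))
        push_cast at this
        exact this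
      have e3 : (m : ℚ) ^ (k - ((i : ℤ) - j)) = m * (m : ℚ) ^ (k - ((i : ℤ) + 1 - j)) := by
        rw [← zpow_one_add₀ hm0.ne']
        congr 1
        ring
      have h1 := psi_add_le (x * (m : ℚ) ^ ((j : ℤ) - (i + 1)))
        (s * (m : ℚ) ^ (k - ((i : ℤ) + 1 - j)))
      have h2 : |s * (m : ℚ) ^ (k - ((i : ℤ) + 1 - j))| = (m : ℚ) ^ (k - ((i : ℤ) + 1 - j)) := by
        rw [abs_mul, abs_of_pos (show (0 : ℚ) < (m : ℚ) ^ (k - ((i : ℤ) + 1 - j)) by positivity)]
        rcases hs with rfl | rfl <;> simp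
      rw [h2] at h1
      have h3 := mul_le_mul_of_nonneg_left h1 (show (0 : ℚ) ≤ (m : ℚ) - 1 by linarith)
      rw [hFi, e3]
      linarith
  have hsum := Finset.sum_le_sum key
  rw [Finset.sum_add_distrib, Finset.sum_range_sub'] at hsum
  unfold hfun
  rw [Finset.mul_sum, Finset.mul_sum]
  have h1 := hF1 0
  have h2 := hF0 n
  linarith

variable {G : Type*} [Group G] {m : ℕ} {a t : G}

theorem Model.inv (M : Model G m a t) (hm : 2 ≤ m) (n j : ℕ) (N : ℕ) (g : G)
    (hg : g ∈ W (gens a t) N) :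
    ∃ (α T : ℕ) (mx mn : ℤ), α + T ≤ N ∧ mn ≤ 0 ∧ 0 ≤ mx ∧ mn ≤ M.K g ∧ M.K g ≤ mx ∧
      2 * (mx - mn) - |M.K g| ≤ T ∧ (∃ z : ℤ, M.X g = (m : ℚ) ^ mn * z) ∧
      |M.X g| ≤ α * (m : ℚ) ^ mx ∧ hfun m n j (M.X g) ≤ α := by
  have hm0 : (0 : ℚ) < m := by positivity
  have hm1 : (1 : ℚ) ≤ m := by exact_mod_cast (by omega : 1 ≤ m)
  induction N generalizing g with
  | zero =>
    have : g = 1 := hg
    subst this
    refine ⟨0, 0, 0, 0, le_rfl, le_rfl, le_rfl, ?_, ?_, ?_, ⟨0, ?_⟩, ?_, ?_⟩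
    · rw [M.K_one]
    · rw [M.K_one]
    · rw [M.K_one]; simp
    · rw [M.X_one]; simp
    · rw [M.X_one]; simp
    · rw [M.X_one, hfun_zero]; simp
  | succ N ih =>
    obtain ⟨h, hh, e | ⟨s, hs, e⟩⟩ := hg
    · subst e
      obtain ⟨α, T, mx, mn, h1, h2⟩ := ih _ hh
      exact ⟨α, T, mx, mn, by omega, h2⟩
    · obtain ⟨α, T, mx, mn, h1, h2, h3, h4, h5, h6, ⟨z, h7⟩, h8, h9⟩ := ih _ hh
      -- the four generators
      have hcase : (∃ σ : ℚ, (σ = 1 ∨ σ = -1) ∧ M.K g = M.K h ∧
          M.X g = M.X h + σ * (m : ℚ) ^ (M.K h)) ∨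
          ((M.K g = M.K h + 1 ∨ M.K g = M.K h - 1) ∧ M.X g = M.X h) := by
        rw [e]
        rcases hs with rfl | rfl | rfl | rfl
        · left
          refine ⟨1, Or.inl rfl, ?_, ?_⟩
          · rw [M.K_mul, M.K_a, add_zero]
          · rw [M.X_mul, M.X_a]; ring
        · left
          refine ⟨-1, Or.inr rfl, ?_, ?_⟩
          · rw [M.K_mul, M.K_inv, M.K_a]; ring
          · rw [M.X_mul, M.X_inv hm, M.K_a, M.X_a]
            simp
        · right
          refine ⟨Or.inl ?_, ?_⟩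
          · rw [M.K_mul, M.K_t]
          · rw [M.X_mul, M.X_t]; ring
        · right
          refine ⟨Or.inr ?_, ?_⟩
          · rw [M.K_mul, M.K_inv, M.K_t]; ring
          · rw [M.X_mul, M.X_inv hm, M.X_t]; ring
      rcases hcase with ⟨σ, hσ, hK, hX⟩ | ⟨hK, hX⟩
      · refine ⟨α + 1, T, mx, mn, by omega, h2, h3, by omega, by omega, by rw [hK]; exact h6,
          ?_, ?_, ?_⟩
        · obtain ⟨r, hr⟩ := Int.eq_ofNat_of_zero_le (show 0 ≤ M.K h - mn by omega)
          refine ⟨z + (if σ = 1 then 1 else -1) * (m : ℤ) ^ r, ?_⟩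
          have e2 : (m : ℚ) ^ (M.K h) = (m : ℚ) ^ mn * (m : ℚ) ^ r := by
            rw [← zpow_natCast, ← zpow_add₀ hm0.ne']
            congr 1
            have : (r : ℤ) = M.K h - mn := hr.symm
            omega
          rw [hX, h7, e2]
          rcases hσ with rfl | rfl
          · push_cast; simp; ring
          · have : ¬ ((-1 : ℚ) = 1) := by norm_num
            simp only [this, if_false]
            push_cast; ring
        · rw [hX]
          have h10 : (m : ℚ) ^ (M.K h) ≤ (m : ℚ) ^ mx := zpow_le_zpow_right₀ hm1 h5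
          have h11 : |σ * (m : ℚ) ^ (M.K h)| = (m : ℚ) ^ (M.K h) := by
            rw [abs_mul, abs_of_pos (show (0 : ℚ) < (m : ℚ) ^ (M.K h) by positivity)]
            rcases hσ with rfl | rfl <;> simp
          calc |M.X h + σ * (m : ℚ) ^ (M.K h)| ≤ |M.X h| + |σ * (m : ℚ) ^ (M.K h)| :=
                abs_add_le _ _
            _ ≤ α * (m : ℚ) ^ mx + (m : ℚ) ^ mx := by rw [h11]; linarith
            _ = _ := by push_cast; ring
        · rw [hX]
          have := hfun_step hm n j (M.X h) (M.K h) σ hσ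
          push_cast
          linarith
      · have hup : ∀ mx' : ℤ, mx ≤ mx' → |M.X g| ≤ α * (m : ℚ) ^ mx' := by
          intro mx' hle
          rw [hX]
          refine h8.trans (mul_le_mul_of_nonneg_left (zpow_le_zpow_right₀ hm1 hle) (by positivity))
        have hdn : ∀ mn' : ℤ, mn' ≤ mn → ∃ z : ℤ, M.X g = (m : ℚ) ^ mn' * z := by
          intro mn' hle
          obtain ⟨r, hr⟩ := Int.eq_ofNat_of_zero_le (show 0 ≤ mn - mn' by omega)
          refine ⟨(m : ℤ) ^ r * z, ?_⟩
          have hr' : (r : ℤ) = mn - mn' := hr.symm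
          have e2 : (m : ℚ) ^ mn = (m : ℚ) ^ mn' * (m : ℚ) ^ r := by
            rw [← zpow_natCast, ← zpow_add₀ hm0.ne']
            congr 1
            omega
          rw [hX, h7, e2]
          push_cast; ring
        refine ⟨α, T + 1, max mx (M.K g), min mn (M.K g), by omega, by omega, by omega, by omega,
          by omega, ?_, hdn _ (by omega), hup _ (by omega), by rw [hX]; exact h9⟩
        push_cast
        have habs : |M.K h| = M.K h ∨ |M.K h| = - M.K h := abs_choice _
        have hnn := abs_nonneg (M.K h)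
        have hge1 := le_abs_self (M.K h)
        have hge2 := neg_abs_le (M.K h)
        have hge3 := le_abs_self (M.K g)
        have hge4 := neg_abs_le (M.K g)
        have habs' : |M.K g| = M.K g ∨ |M.K g| = - M.K g := abs_choice _
        omega

end Pool.Agent.X185.RD
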