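import Pool.Agent.X185.RD.Lower

/-!
Unbounded retreat depth of `BS(1,m)`.
-/

set_option autoImplicit false

namespace Pool.Agent.X185.RD

theorem pow_form {m : ℕ} {y σ : ℚ} (hσ : σ = 1 ∨ σ = -1) {c0 : ℤ}
    (hy : (m : ℚ) * y = σ * y + c0) (r : ℕ) :
    ∃ (e : ℚ) (N : ℤ), (e = 1 ∨ e = -1) ∧ (m : ℚ) ^ r * y = e * y + N := by
  induction r with
  | zero => exact ⟨1, 0, Or.inl rfl, by simp⟩
  | succ r ih =>
    obtain ⟨e, N, he, h⟩ := ih
    rcases he with rfl | rfl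
    · refine ⟨σ, c0 + m * N, hσ, ?_⟩
      rw [pow_succ', mul_assoc, h]
      push_cast
      linear_combination hy
    · refine ⟨-σ, -c0 + m * N, by rcases hσ with rfl | rfl <;> simp, ?_⟩
      rw [pow_succ', mul_assoc, h]
      push_cast
      linear_combination -hy

theorem hfun_lower {m : ℕ} (hm : 2 ≤ m) {y σ : ℚ} (hσ : σ = 1 ∨ σ = -1) {c0 : ℤ}
    (hy : (m : ℚ) * y = σ * y + c0) (hy0 : 0 ≤ y) (hy1 : y ≤ 1 / 2) (j : ℕ) (Z0 : ℤ)
    (hZ : (Z0 : ℚ) = y * ((m : ℚ) ^ (2 * j) - 1)) :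
    ((m : ℚ) - 1) * y * (2 * j) - y ≤ hfun m (2 * j) j ((m : ℚ) ^ (-(j : ℤ)) * Z0) := by
  have hm0 : (0 : ℚ) < m := by positivity
  have hm1 : (1 : ℚ) < m := by exact_mod_cast hm
  have key : ∀ i ∈ Finset.range (2 * j),
      ((m : ℚ) - 1) * y - y * (((m : ℚ) ^ i)⁻¹ - ((m : ℚ) ^ (i + 1))⁻¹) ≤
      ((m : ℚ) - 1) * psi (((m : ℚ) ^ (-(j : ℤ)) * Z0) * (m : ℚ) ^ ((j : ℤ) - (i + 1))) := by
    intro i hi
    have hi' : i < 2 * j := Finset.mem_range.1 hi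
    obtain ⟨r, hr⟩ : ∃ r, 2 * j = (i + 1) + r := ⟨2 * j - (i + 1), by omega⟩
    obtain ⟨e, N, he, h⟩ := pow_form hσ hy r
    have e1 : ((m : ℚ) ^ (-(j : ℤ)) * Z0) * (m : ℚ) ^ ((j : ℤ) - (i + 1)) =
        Z0 * ((m : ℚ) ^ (i + 1))⁻¹ := by
      have : (m : ℚ) ^ (-(j : ℤ)) * (m : ℚ) ^ ((j : ℤ) - (i + 1)) = ((m : ℚ) ^ (i + 1))⁻¹ := by
        rw [← zpow_add₀ hm0.ne', ← zpow_natCast, ← zpow_neg]
        congr 1
        push_cast; ring
      rw [← this]; ring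
    have e2 : Z0 * ((m : ℚ) ^ (i + 1))⁻¹ + y * ((m : ℚ) ^ (i + 1))⁻¹ = e * y + N := by
      rw [hZ, ← h, hr, pow_add]
      field_simp
      ring
    have h1 := psi_lower (N := N) he hy0 hy1
    have h2 := psi_add_le (Z0 * ((m : ℚ) ^ (i + 1))⁻¹) (y * ((m : ℚ) ^ (i + 1))⁻¹)
    rw [e2, abs_of_nonneg (show (0 : ℚ) ≤ y * ((m : ℚ) ^ (i + 1))⁻¹ by positivity)] at h2
    have h3 : y - y * ((m : ℚ) ^ (i + 1))⁻¹ ≤ psi (Z0 * ((m : ℚ) ^ (i + 1))⁻¹) := by linarith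
    rw [e1]
    have h4 := mul_le_mul_of_nonneg_left h3 (show (0 : ℚ) ≤ (m : ℚ) - 1 by linarith)
    have h5 : ((m : ℚ) - 1) * (y * ((m : ℚ) ^ (i + 1))⁻¹) =
        y * (((m : ℚ) ^ i)⁻¹ - ((m : ℚ) ^ (i + 1))⁻¹) := by
      rw [pow_succ]
      field_simp
    linarith [mul_sub ((m : ℚ) - 1) y (y * ((m : ℚ) ^ (i + 1))⁻¹)]
  have hsum := Finset.sum_le_sum key
  unfold hfun
  rw [Finset.mul_sum]
  refine le_trans ?_ hsum
  rw [Finset.sum_sub_distrib, ← Finset.mul_sum, ← Finset.mul_sum, Finset.sum_range_sub']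
  simp only [Finset.sum_const, Finset.card_range, nsmul_eq_mul]
  have : (0 : ℚ) ≤ y * ((m : ℚ) ^ (2 * j))⁻¹ := by positivity
  push_cast
  simp only [pow_zero, inv_one]
  nlinarith

section

variable {G : Type*} [Group G] {m : ℕ} {a t : G}

theorem Model.lower (M : Model G m a t) (hm : 2 ≤ m) {y σ : ℚ} (hσ : σ = 1 ∨ σ = -1) {c0 : ℤ}
    (hy : (m : ℚ) * y = σ * y + c0) (hy0 : 1 / 3 ≤ y) (hy1 : y ≤ 1 / 2) (j s : ℕ) (hj : 1 ≤ j)
    (Z0 : ℤ) (hZ : (Z0 : ℚ) = y * ((m : ℚ) ^ (2 * j) - 1)) (hd : ¬ (m : ℤ) ∣ Z0) (g : G)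
    (hX : M.X g = (m : ℚ) ^ (-(j : ℤ)) * Z0) (hK : M.K g = 0) :
    (4 * j - 2 * s + 2 * ((m : ℚ) - 1) * y * j - 1 ≤ wordLength (gens a t) g) ∨
      (m : ℚ) ^ s / 6 ≤ wordLength (gens a t) g := by
  have hm0 : (0 : ℚ) < m := by positivity
  have hm1 : (1 : ℚ) ≤ m := by exact_mod_cast (by omega : 1 ≤ m)
  obtain ⟨α, T, mx, mn, h1, h2, h3, h4, h5, h6, ⟨z, h7⟩, h8, h9⟩ :=
    M.inv hm (2 * j) j _ g (mem_W_wordLength gens_inv M.gens_gen g)
  have hN : ((α : ℚ) + T) ≤ wordLength (gens a t) g := by exact_mod_cast h1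
  -- the lowest position
  have hmn : mn ≤ -(j : ℤ) := by
    by_contra hlt
    apply hd
    obtain ⟨r, hr⟩ := Int.eq_ofNat_of_zero_le (show 0 ≤ mn + j - 1 by omega)
    refine ⟨(m : ℤ) ^ r * z, ?_⟩
    have hr' : (r : ℤ) = mn + j - 1 := hr.symm
    have e : (Z0 : ℚ) = m * ((m : ℚ) ^ r * z) := by
      have e1 : (m : ℚ) ^ (-(j : ℤ)) * Z0 = (m : ℚ) ^ mn * z := by rw [← hX, h7]
      have e2 : (Z0 : ℚ) = (m : ℚ) ^ (j : ℤ) * ((m : ℚ) ^ (-(j : ℤ)) * Z0) := by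
        rw [← mul_assoc, ← zpow_add₀ hm0.ne']; simp
      have e3 : (m : ℚ) ^ (j : ℤ) * (m : ℚ) ^ mn = m * (m : ℚ) ^ r := by
        rw [← zpow_add₀ hm0.ne', ← zpow_natCast, ← zpow_one_add₀ hm0.ne']
        congr 1
        omega
      rw [e2, e1, ← mul_assoc, e3]; ring
    exact_mod_cast e
  by_cases hmx : (j : ℤ) - s ≤ mx
  · left
    have hT : 4 * (j : ℤ) - 2 * s ≤ T := by
      rw [hK] at h6
      simp only [abs_zero, sub_zero] at h6
      omega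
    have hT' : 4 * (j : ℚ) - 2 * s ≤ T := by exact_mod_cast hT
    have h10 := hfun_lower hm hσ hy (by linarith) hy1 j Z0 hZ
    rw [← hX] at h10
    linarith
  · right
    have h10 : (m : ℚ) ^ mx ≤ (m : ℚ) ^ ((j : ℤ) - s) := zpow_le_zpow_right₀ hm1 (by omega)
    have h11 : (m : ℚ) ^ ((j : ℤ) - s) = (m : ℚ) ^ j / (m : ℚ) ^ s := by
      rw [zpow_sub₀ hm0.ne']; simp
    have hpow : (2 : ℚ) ≤ (m : ℚ) ^ (2 * j) := by
      calc (2 : ℚ) ≤ (m : ℚ) ^ 1 := by rw [pow_one]; exact_mod_cast hm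
        _ ≤ (m : ℚ) ^ (2 * j) := pow_le_pow_right₀ hm1 (by omega)
    have h12 : (m : ℚ) ^ j / 6 ≤ |M.X g| := by
      rw [hX, hZ, abs_mul, abs_of_pos (show (0 : ℚ) < (m : ℚ) ^ (-(j : ℤ)) by positivity),
        abs_of_nonneg (by nlinarith)]
      have e4 : (m : ℚ) ^ (-(j : ℤ)) = ((m : ℚ) ^ j)⁻¹ := by rw [zpow_neg, zpow_natCast]
      have hp : (0 : ℚ) < (m : ℚ) ^ j := by positivity
      rw [e4, inv_mul_eq_div, le_div_iff₀ hp]
      have e5 : (m : ℚ) ^ (2 * j) = (m : ℚ) ^ j * (m : ℚ) ^ j := by rw [two_mul, pow_add]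
      rw [e5] at hpow ⊢
      nlinarith
    have h13 : (m : ℚ) ^ j / 6 ≤ α * ((m : ℚ) ^ j / (m : ℚ) ^ s) := by
      rw [← h11]
      exact h12.trans (h8.trans (mul_le_mul_of_nonneg_left h10 (by positivity)))
    have hp : (0 : ℚ) < (m : ℚ) ^ j := by positivity
    have hps : (0 : ℚ) < (m : ℚ) ^ s := by positivity
    have h14 : (m : ℚ) ^ s / 6 ≤ α := by
      rw [mul_div_assoc', le_div_iff₀ hps] at h13
      have h15 : (m : ℚ) ^ j * ((m : ℚ) ^ s / 6) ≤ (m : ℚ) ^ j * α := by linarith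
      exact le_of_mul_le_mul_left h15 hp
    have hT0 : (0 : ℚ) ≤ T := by positivity
    linarith

/-- The arithmetic data. -/
theorem exists_data {m : ℕ} (hm : 2 ≤ m) :
    ∃ (y σ : ℚ) (c0 : ℤ), (σ = 1 ∨ σ = -1) ∧ (m : ℚ) * y = σ * y + c0 ∧ 1 / 3 ≤ y ∧ y ≤ 1 / 2 ∧
      ((m : ℚ) - 2) + 1 / (2 * ((m : ℚ) + 1)) ≤ 2 * ((m : ℚ) - 1) * y ∧
      ((m : ℚ) - 1) / 2 + 1 / (2 * ((m : ℚ) + 1)) ≤ 2 * ((m : ℚ) - 1) * y ∧
      ∀ j : ℕ, 1 ≤ j → ∃ Z0 : ℤ, (Z0 : ℚ) = y * ((m : ℚ) ^ (2 * j) - 1) ∧ ¬ (m : ℤ) ∣ Z0 := by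
  rcases Nat.even_or_odd' m with ⟨q, rfl | rfl⟩
  · -- even
    have hq : (1 : ℚ) ≤ q := by
      have : 1 ≤ q := by omega
      exact_mod_cast this
    refine ⟨q / (2 * q + 1), -1, q, Or.inr rfl, ?_, ?_, ?_, ?_, ?_, ?_⟩
    · push_cast; field_simp; ring
    · rw [le_div_iff₀ (by positivity)]; linarith
    · rw [div_le_iff₀ (by positivity)]; linarith
    · push_cast
      have : (0 : ℚ) < 2 * q + 1 := by positivity
      rw [mul_div_assoc', le_div_iff₀ this]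
      have e : ((2 * (q : ℚ) - 2) + 1 / (2 * (2 * q + 1))) * (2 * q + 1) =
        (2 * q - 2) * (2 * q + 1) + 1 / 2 := by field_simp
      rw [e]
      nlinarith
    · push_cast
      have : (0 : ℚ) < 2 * q + 1 := by positivity
      rw [mul_div_assoc', le_div_iff₀ this]
      have e : ((2 * (q : ℚ) - 1) / 2 + 1 / (2 * (2 * q + 1))) * (2 * q + 1) =
        (2 * q - 1) / 2 * (2 * q + 1) + 1 / 2 := by field_simp
      rw [e]
      nlinarith
    · intro j hj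
      have hdv : (((2 * q : ℕ) : ℤ) + 1) ∣ (((2 * q : ℕ) : ℤ)) ^ (2 * j) - 1 := by
        have h1 : (((2 * q : ℕ) : ℤ)) ^ 2 - 1 ∣ ((((2 * q : ℕ) : ℤ)) ^ 2) ^ j - 1 ^ j :=
          sub_dvd_pow_sub_pow _ _ _
        rw [one_pow, ← pow_mul] at h1
        exact Dvd.dvd.trans ⟨((2 * q : ℕ) : ℤ) - 1, by ring⟩ h1
      obtain ⟨u, hu⟩ := hdv
      refine ⟨q * u, ?_, ?_⟩
      · have hu' : ((2 * q : ℕ) : ℚ) ^ (2 * j) - 1 = (((2 * q : ℕ) : ℚ) + 1) * u := by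
          exact_mod_cast hu
        rw [hu']
        push_cast
        field_simp
      · rintro ⟨w, hw⟩
        have hq0 : (q : ℤ) ≠ 0 := by omega
        have h1 : u = 2 * w := by
          apply mul_left_cancel₀ hq0
          rw [hw]; push_cast; ring
        rw [h1] at hu
        have h2 : (2 : ℤ) ∣ (((2 * q : ℕ) : ℤ)) ^ (2 * j) := by
          apply dvd_pow _ (by omega)
          exact ⟨q, by push_cast; ring⟩
        obtain ⟨v, hv⟩ := h2
        rw [hv] at hu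
        have : 2 * v - 1 = 2 * ((((2 * q : ℕ) : ℤ) + 1) * w) := by rw [hu]; ring
        omega
  · -- odd
    have hq : (1 : ℚ) ≤ q := by
      have : 1 ≤ q := by omega
      exact_mod_cast this
    refine ⟨1 / 2, 1, q, Or.inl rfl, ?_, by norm_num, le_rfl, ?_, ?_, ?_⟩
    · push_cast; ring
    · push_cast
      have : 1 / (2 * ((2 * (q : ℚ) + 1) + 1)) ≤ 1 := by
        rw [div_le_one (by positivity)]; linarith
      linarith
    · push_cast
      have : 1 / (2 * ((2 * (q : ℚ) + 1) + 1)) ≤ 1 := by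
        rw [div_le_one (by positivity)]; linarith
      linarith
    · intro j hj
      have hodd : (2 : ℤ) ∣ (((2 * q + 1 : ℕ) : ℤ)) ^ (2 * j) - 1 := by
        have h1 : (((2 * q + 1 : ℕ) : ℤ)) - 1 ∣ (((2 * q + 1 : ℕ) : ℤ)) ^ (2 * j) - 1 ^ (2 * j) :=
          sub_dvd_pow_sub_pow _ _ _
        rw [one_pow] at h1
        exact Dvd.dvd.trans ⟨q, by push_cast; ring⟩ h1
      obtain ⟨u, hu⟩ := hodd
      refine ⟨u, ?_, ?_⟩
      · have hu' : ((2 * q + 1 : ℕ) : ℚ) ^ (2 * j) - 1 = 2 * u := by exact_mod_cast hu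
        rw [hu']; ring
      · rintro ⟨w, hw⟩
        rw [hw] at hu
        have h2 : (((2 * q + 1 : ℕ) : ℤ)) ∣ (((2 * q + 1 : ℕ) : ℤ)) ^ (2 * j) :=
          dvd_pow_self _ (by omega)
        have h3 : (((2 * q + 1 : ℕ) : ℤ)) ∣ 1 := by
          have h4 : (((2 * q + 1 : ℕ) : ℤ)) ∣ (((2 * q + 1 : ℕ) : ℤ)) ^ (2 * j) - 1 := by
            rw [hu]; exact ⟨2 * w, by ring⟩
          have := dvd_sub h2 h4
          simpa using this
        have := Int.le_of_dvd one_pos h3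
        omega

theorem exists_big (A B : ℕ) : ∃ s : ℕ, A * s + B < 2 ^ s := by
  have h : ∀ s : ℕ, 4 ≤ s → s * s ≤ 2 ^ s := by
    intro s hs
    induction s, hs using Nat.le_induction with
    | base => norm_num
    | succ k hk ih =>
      rw [pow_succ]
      nlinarith
  refine ⟨A + B + 5, lt_of_lt_of_le ?_ (h _ (by omega))⟩
  nlinarith [Nat.zero_le (A * B)]

/-- Unbounded retreat depth. -/
theorem Model.unbounded (M : Model G m a t) (hm : 2 ≤ m) :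
    ¬ BoundedRetreatDepth (gens a t) := by
  rintro ⟨R, hR⟩
  have hm0 : (0 : ℚ) < m := by positivity
  have hm1 : (1 : ℚ) ≤ m := by exact_mod_cast (by omega : 1 ≤ m)
  have hm2 : (2 : ℚ) ≤ m := by exact_mod_cast hm
  have hmz : (0 : ℤ) < m := by omega
  obtain ⟨y, σ, c0, hσ, hy, hy0, hy1, hg1, hg2, hdata⟩ := exists_data hm
  obtain ⟨s, hs⟩ := exists_big (24 * (m + 4) * (m + 1))
    (6 * (m + 4) * (m + 1) * (11 + 2 * R) + 24 + 6 * R)
  set j : ℕ := (m + 1) * (4 * s + 11 + 2 * R) with hj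
  have hj1 : 1 ≤ j := by
    rw [hj]; exact Nat.succ_le_of_lt (by positivity)
  obtain ⟨Z0, hZ0, hZd⟩ := hdata j hj1
  -- the element
  set g : G := t ^ (-(j : ℤ)) * (a ^ Z0 * t ^ (j : ℤ)) with hg
  have hgX : M.X g = (m : ℚ) ^ (-(j : ℤ)) * Z0 := by
    rw [hg, M.X_mul, M.X_mul, M.X_tpow hm, M.X_tpow hm, M.K_tpow, M.X_apow hm, M.K_apow]
    ring
  have hgK : M.K g = 0 := by
    rw [hg, M.K_mul, M.K_mul, M.K_tpow, M.K_tpow, M.K_apow]
    ring
  have hlow := M.lower hm hσ hy hy0 hy1 j s hj1 Z0 hZ0 hZd g hgX hgK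
  -- the region
  let T : Set G := {h | -(j : ℤ) ≤ M.K h ∧ M.K h ≤ j ∧
    ∃ Z : ℤ, M.X h = (m : ℚ) ^ (-(j : ℤ)) * Z ∧ |Z| ≤ (m : ℤ) ^ (2 * j)}
  have hTfin : T.Finite := by
    have hf : (Set.image2 (fun (Z : ℤ) (k : ℤ) => (((m : ℚ) ^ (-(j : ℤ)) * Z, k) : ℚ × ℤ))
        (Set.Icc (-(m : ℤ) ^ (2 * j)) ((m : ℤ) ^ (2 * j))) (Set.Icc (-(j : ℤ)) j)).Finite :=
      Set.Finite.image2 _ (Set.finite_Icc _ _) (Set.finite_Icc _ _)
    refine Set.Finite.of_finite_image (f := fun h => (M.X h, M.K h)) (hf.subset ?_) ?_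
    · rintro _ ⟨h, ⟨h1, h2, Z, h3, h4⟩, rfl⟩
      exact ⟨Z, abs_le.1 h4, M.K h, ⟨h1, h2⟩, by simp [h3]⟩
    · intro h _ h' _ e
      have e1 := congrArg Prod.fst e
      have e2 := congrArg Prod.snd e
      exact M.inj _ _ e1 e2
  have hgT : g ∈ T := by
    refine ⟨by rw [hgK]; omega, by rw [hgK]; omega, Z0, hgX, ?_⟩
    have h1 : (0 : ℚ) ≤ (m : ℚ) ^ (2 * j) - 1 := by
      have := one_le_pow₀ (n := 2 * j) hm1
      linarith
    have h2 : |(Z0 : ℚ)| ≤ (m : ℚ) ^ (2 * j) := by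
      rw [hZ0, abs_of_nonneg (mul_nonneg (by linarith) h1)]
      nlinarith
    exact_mod_cast h2
  -- numbers
  have hjq : (j : ℚ) / ((m : ℚ) + 1) = 4 * s + 11 + 2 * R := by
    rw [div_eq_iff (by positivity), hj]
    push_cast; ring
  have hsq : (24 * ((m : ℚ) + 4) * (m + 1)) * s +
      (6 * ((m : ℚ) + 4) * (m + 1) * (11 + 2 * R) + 24 + 6 * R) < (m : ℚ) ^ s := by
    have h1 : ((24 * ((m : ℚ) + 4) * (m + 1)) * s +
      (6 * ((m : ℚ) + 4) * (m + 1) * (11 + 2 * R) + 24 + 6 * R)) < (2 : ℚ) ^ s := by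
      exact_mod_cast hs
    exact h1.trans_le (pow_le_pow_left₀ (by norm_num) hm2 s)
  have hjj : (j : ℚ) = ((m : ℚ) + 1) * (4 * s + 11 + 2 * R) := by rw [hj]; push_cast; ring
  have hj0 : (0 : ℚ) ≤ j := by positivity
  have hfin : ∀ w : ℕ, (2 * (w : ℚ) ≤ 8 * j + 8 + ((m : ℚ) - 1) * j ∨
      2 * (w : ℚ) ≤ 8 * j + 8 + (2 * (m : ℚ) - 4) * j) → w + R < wordLength (gens a t) g := by
    intro w hw
    have hw' : (w : ℚ) + R < wordLength (gens a t) g := by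
      rcases hlow with hlow | hlow
      · have e1 : (2 * ((m : ℚ) - 1) * y * j) ≥ (((m : ℚ) - 2) + 1 / (2 * ((m : ℚ) + 1))) * j :=
          mul_le_mul_of_nonneg_right hg1 hj0
        have e2 : (2 * ((m : ℚ) - 1) * y * j) ≥ (((m : ℚ) - 1) / 2 + 1 / (2 * ((m : ℚ) + 1))) * j :=
          mul_le_mul_of_nonneg_right hg2 hj0
        have e3 : 1 / (2 * ((m : ℚ) + 1)) * j = (j : ℚ) / ((m : ℚ) + 1) / 2 := by
          field_simp
        rw [add_mul, e3, hjq] at e1 e2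
        rcases hw with hw | hw <;> linarith
      · have hR0 : (0 : ℚ) ≤ R := by positivity
        have hs0 : (0 : ℚ) ≤ s := by positivity
        have e4 : (w : ℚ) ≤ 4 * j + 4 + m * j := by
          rcases hw with hw | hw <;> nlinarith
        have e5 : 6 * (4 * (j : ℚ) + 4 + m * j + R) < (m : ℚ) ^ s := by
          have : 6 * (4 * (j : ℚ) + 4 + m * j + R) = (24 * ((m : ℚ) + 4) * (m + 1)) * s +
            (6 * ((m : ℚ) + 4) * (m + 1) * (11 + 2 * R) + 24 + 6 * R) := by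
            rw [hjj]; ring
          rw [this]; exact hsq
        linarith
    exact_mod_cast hw'
  refine retreatDepth_gt gens_inv hTfin hgT ?_ (hR g)
  -- the exits
  rintro h ⟨hk1, hk2, Z, hXZ, hZ⟩ x hx hnot
  apply hfin
  obtain ⟨u, hu⟩ : ∃ u : ℕ, M.K h = (j : ℤ) - u := ⟨((j : ℤ) - M.K h).toNat, by omega⟩
  obtain ⟨v, hv⟩ : ∃ v : ℕ, (v : ℤ) = j + M.K h := ⟨((j : ℤ) + M.K h).toNat, by omega⟩
  have huv : v + u = 2 * j := by omega
  -- general bound from digits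
  have hbd : ∀ c : List ℤ, c.length = 2 * j + 1 → ev m c = Z →
      wordLength (gens a t) h ≤ cost c + j + 2 * j + u + 2 ∧
      wordLength (gens a t) h ≤ cost c + v + 2 * j + j + 2 := by
    intro c hc hev
    have hX' : M.X h = (m : ℚ) ^ (-(j : ℤ)) * (ev m c : ℤ) := by rw [hev]; exact hXZ
    have h1 := wordLength_le gens_inv (M.up1 hm (l := j) (j := j) (by omega) hX' hu)
    have h2 := wordLength_le gens_inv (M.up2 hm (l := j) (j := j) (by omega) hX' hu hv)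
    constructor <;> omega
  have hx4 : (∃ e : ℤ, (e = 1 ∨ e = -1) ∧ M.K (h * x) = M.K h ∧
      M.X (h * x) = M.X h + e * (m : ℚ) ^ (M.K h)) ∨
      ((M.K (h * x) = M.K h + 1 ∨ M.K (h * x) = M.K h - 1) ∧ M.X (h * x) = M.X h) := by
    rcases hx with rfl | rfl | rfl | rfl
    · left
      refine ⟨1, Or.inl rfl, ?_, ?_⟩
      · rw [M.K_mul, M.K_a, add_zero]
      · rw [M.X_mul, M.X_a]; push_cast; ring
    · left
      refine ⟨-1, Or.inr rfl, ?_, ?_⟩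
      · rw [M.K_mul, M.K_inv, M.K_a]; ring
      · rw [M.X_mul, M.X_inv hm, M.K_a, M.X_a]
        simp
    · right
      refine ⟨Or.inl ?_, ?_⟩
      · rw [M.K_mul, M.K_t]
      · rw [M.X_mul, M.X_t]; ring
    · right
      refine ⟨Or.inr ?_, ?_⟩
      · rw [M.K_mul, M.K_inv, M.K_t]; ring
      · rw [M.X_mul, M.X_inv hm, M.X_t]; ring
  rcases hx4 with ⟨e, he, hKx, hXx⟩ | ⟨hKx, hXx⟩
  · -- crossing the threshold
    have hpv : (m : ℚ) ^ (M.K h) = (m : ℚ) ^ (-(j : ℤ)) * (m : ℚ) ^ v := by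
      rw [← zpow_natCast, ← zpow_add₀ hm0.ne']
      congr 1
      omega
    have hXx' : M.X (h * x) = (m : ℚ) ^ (-(j : ℤ)) * ((Z + e * (m : ℤ) ^ v : ℤ) : ℚ) := by
      rw [hXx, hXZ, hpv]; push_cast; ring
    have hbig : (m : ℤ) ^ (2 * j) < |Z + e * (m : ℤ) ^ v| := by
      by_contra hle
      exact hnot ⟨by rw [hKx]; exact hk1, by rw [hKx]; exact hk2, _, hXx', not_lt.1 hle⟩
    have hpos : (0 : ℤ) < (m : ℤ) ^ v := by positivity
    have hZbig : (m : ℤ) ^ (2 * j) - (m : ℤ) ^ v < |Z| := by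
      have h1 : |Z + e * (m : ℤ) ^ v| ≤ |Z| + (m : ℤ) ^ v := by
        refine (abs_add_le _ _).trans ?_
        rw [abs_mul, abs_of_pos hpos]
        rcases he with rfl | rfl <;> simp
      omega
    obtain ⟨c, hc, hev, hcost⟩ := digits (m := m) hm v ((m : ℤ) ^ (2 * j) - |Z|) (by omega)
      (by omega)
    have hcne : c ≠ [] := by rintro rfl; simp at hc
    -- the digits of `Z`
    obtain ⟨c', h1, h2, h3⟩ : ∃ c' : List ℤ, c'.length = 2 * j + 1 ∧ ev m c' = Z ∧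
        cost c' ≤ cost c + 1 := by
      rcases le_total 0 Z with hz | hz
      · obtain ⟨c', h1, h2, h3⟩ := add_top m (c.map (fun z => -z)) (by simpa using hcne) (2 * j)
          (by rw [List.length_map, hc]; omega) 1
        refine ⟨c', h1, ?_, by rw [cost_neg] at h3; simpa using h3⟩
        rw [h2, ev_neg, hev, abs_of_nonneg hz]; ring
      · obtain ⟨c', h1, h2, h3⟩ := add_top m c hcne (2 * j)
          (by rw [hc]; omega) (-1)
        refine ⟨c', h1, ?_, by simpa using h3⟩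
        rw [h2, hev, abs_of_nonpos hz]; ring
    obtain ⟨b1, b2⟩ := hbd c' h1 h2
    have q1 : (wordLength (gens a t) h : ℚ) ≤ cost c + 1 + j + 2 * j + u + 2 := by
      exact_mod_cast b1.trans (by omega)
    have q2 : (wordLength (gens a t) h : ℚ) ≤ cost c + 1 + v + 2 * j + j + 2 := by
      exact_mod_cast b2.trans (by omega)
    have q3 : 2 * (cost c : ℚ) ≤ v * ((m : ℚ) - 1) + 2 := by
      have : ((m - 1 : ℕ) : ℚ) = (m : ℚ) - 1 := by
        rw [Nat.cast_sub (by omega)]; simp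
      rw [← this]
      exact_mod_cast hcost
    have q4 : (v : ℚ) + u = 2 * j := by exact_mod_cast huv
    have hu0 : (0 : ℚ) ≤ u := by positivity
    have hv0 : (0 : ℚ) ≤ v := by positivity
    by_cases hvj : v ≤ j
    · -- `k ≤ 0`
      left
      have hvj' : (v : ℚ) ≤ j := by exact_mod_cast hvj
      have h5 := mul_le_mul_of_nonneg_right hvj' (show (0 : ℚ) ≤ (m : ℚ) - 1 by linarith)
      linarith
    · have hvj' : (j : ℚ) ≤ v := by exact_mod_cast (not_le.1 hvj).le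
      by_cases hm3 : 3 ≤ m
      · right
        have hm3' : (3 : ℚ) ≤ m := by exact_mod_cast hm3
        have h5 : (0 : ℚ) ≤ (2 * j - v) * ((m : ℚ) - 3) :=
          mul_nonneg (by linarith) (by linarith)
        linarith
      · left
        have hm2' : (m : ℚ) = 2 := by
          have : m = 2 := by omega
          exact_mod_cast this
        rw [hm2'] at q3 ⊢
        linarith
  · -- cursor exits
    obtain ⟨c, hc, hev, hcost⟩ := digits_abs (m := m) hm (2 * j) Z hZ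
    obtain ⟨b1, b2⟩ := hbd c hc hev
    have hKout : ¬ (-(j : ℤ) ≤ M.K (h * x) ∧ M.K (h * x) ≤ j) := by
      rintro ⟨h1, h2⟩
      exact hnot ⟨h1, h2, Z, by rw [hXx]; exact hXZ, hZ⟩
    have q3 : 2 * (cost c : ℚ) ≤ (2 * j) * ((m : ℚ) - 1) + 2 := by
      have : ((m - 1 : ℕ) : ℚ) = (m : ℚ) - 1 := by
        rw [Nat.cast_sub (by omega)]; simp
      rw [← this]
      exact_mod_cast hcost
    right
    have huv0 : u = 0 ∨ v = 0 := by omega
    rcases huv0 with h0 | h0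
    · have q1 : (wordLength (gens a t) h : ℚ) ≤ cost c + j + 2 * j + 2 := by
        exact_mod_cast b1.trans (by omega)
      linarith
    · have q2 : (wordLength (gens a t) h : ℚ) ≤ cost c + 2 * j + j + 2 := by
        exact_mod_cast b2.trans (by omega)
      linarith

end

end Pool.Agent.X185.RD
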