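import Pool.Agent.X185.RD.Defs

/-!
The affine model of the group `BS(1,m)` and two-sided bounds for the word length.
-/

set_option autoImplicit false

namespace Pool.Agent.X185.RD

/-- A group generated by `a, t` with faithful affine coordinates `(X, K)`. -/
structure Model (G : Type*) [Group G] (m : ℕ) (a t : G) where
  X : G → ℚ
  K : G → ℤ
  X_mul : ∀ g h, X (g * h) = X g + (m : ℚ) ^ (K g) * X h
  K_mul : ∀ g h, K (g * h) = K g + K h
  X_a : X a = 1
  K_a : K a = 0
  X_t : X t = 0
  K_t : K t = 1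
  inj : ∀ g h, X g = X h → K g = K h → g = h
  gen : Subgroup.closure ({a, t} : Set G) = ⊤

/-- The generating set. -/
def gens {G : Type*} [Group G] (a t : G) : Set G := {a, a⁻¹, t, t⁻¹}

section

variable {G : Type*} [Group G] {m : ℕ} {a t : G}

theorem gens_inv : ∀ s ∈ gens a t, s⁻¹ ∈ gens a t := by
  rintro s (rfl | rfl | rfl | rfl) <;> simp [gens]

theorem a_mem : a ∈ gens a t := by simp [gens]
theorem t_mem : t ∈ gens a t := by simp [gens]

theorem Model.gens_gen (M : Model G m a t) : Subgroup.closure (gens a t) = ⊤ := by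
  rw [eq_top_iff, ← M.gen]
  apply Subgroup.closure_mono
  rintro x (rfl | rfl)
  · exact a_mem
  · exact t_mem

theorem Model.K_one (M : Model G m a t) : M.K 1 = 0 := by
  have := M.K_mul 1 1
  rw [mul_one] at this
  omega

theorem Model.X_one (M : Model G m a t) : M.X 1 = 0 := by
  have := M.X_mul 1 1
  rw [mul_one, M.K_one, zpow_zero, one_mul] at this
  linarith

theorem Model.K_inv (M : Model G m a t) (g : G) : M.K g⁻¹ = - M.K g := by
  have := M.K_mul g g⁻¹
  rw [mul_inv_cancel, M.K_one] at this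
  omega

theorem Model.X_inv (M : Model G m a t) (hm : 2 ≤ m) (g : G) :
    M.X g⁻¹ = - (m : ℚ) ^ (- M.K g) * M.X g := by
  have := M.X_mul g g⁻¹
  rw [mul_inv_cancel, M.X_one] at this
  have hm0 : (m : ℚ) ≠ 0 := by positivity
  have h1 : (m : ℚ) ^ (- M.K g) * (m : ℚ) ^ (M.K g) = 1 := by
    rw [← zpow_add₀ hm0]; simp
  calc M.X g⁻¹ = ((m : ℚ) ^ (- M.K g) * (m : ℚ) ^ (M.K g)) * M.X g⁻¹ := by rw [h1, one_mul]
    _ = (m : ℚ) ^ (- M.K g) * ((m : ℚ) ^ (M.K g) * M.X g⁻¹) := by ring
    _ = (m : ℚ) ^ (- M.K g) * (- M.X g) := by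
        rw [show (m : ℚ) ^ (M.K g) * M.X g⁻¹ = - M.X g by linarith]
    _ = _ := by ring

theorem Model.K_tpow (M : Model G m a t) (z : ℤ) : M.K (t ^ z) = z := by
  have h : ∀ n : ℕ, M.K (t ^ n) = n := by
    intro n
    induction n with
    | zero => simpa using M.K_one
    | succ n ih => rw [pow_succ, M.K_mul, ih, M.K_t]; push_cast; ring
  obtain ⟨n, rfl | rfl⟩ := z.eq_nat_or_neg
  · simpa using h n
  · rw [zpow_neg, M.K_inv]; simpa using h n

theorem Model.X_tpow (M : Model G m a t) (hm : 2 ≤ m) (z : ℤ) : M.X (t ^ z) = 0 := by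
  have h : ∀ n : ℕ, M.X (t ^ n) = 0 := by
    intro n
    induction n with
    | zero => simpa using M.X_one
    | succ n ih => rw [pow_succ, M.X_mul, ih, M.X_t]; ring
  obtain ⟨n, rfl | rfl⟩ := z.eq_nat_or_neg
  · simpa using h n
  · rw [zpow_neg, M.X_inv hm]; simp [h n]

theorem Model.K_apow (M : Model G m a t) (z : ℤ) : M.K (a ^ z) = 0 := by
  have h : ∀ n : ℕ, M.K (a ^ n) = 0 := by
    intro n
    induction n with
    | zero => simpa using M.K_one
    | succ n ih => rw [pow_succ, M.K_mul, ih, M.K_a]; ring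
  obtain ⟨n, rfl | rfl⟩ := z.eq_nat_or_neg
  · simpa using h n
  · rw [zpow_neg, M.K_inv]; simpa using h n

theorem Model.X_apow (M : Model G m a t) (hm : 2 ≤ m) (z : ℤ) : M.X (a ^ z) = z := by
  have h : ∀ n : ℕ, M.X (a ^ n) = n := by
    intro n
    induction n with
    | zero => simpa using M.X_one
    | succ n ih =>
      have h0 : M.K (a ^ n) = 0 := by simpa using M.K_apow (n : ℤ)
      rw [pow_succ, M.X_mul, ih, M.X_a, h0, zpow_zero]
      push_cast; ring
  obtain ⟨n, rfl | rfl⟩ := z.eq_nat_or_neg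
  · simpa using h n
  · have h0 : M.K (a ^ (n : ℤ)) = 0 := M.K_apow n
    rw [zpow_neg, M.X_inv hm, h0]; simp [h n]

/-! ### Digits -/

/-- value of a list of digits. -/
def ev (m : ℕ) : List ℤ → ℤ
  | [] => 0
  | c :: cs => c + m * ev m cs

/-- total absolute value of the digits. -/
def cost : List ℤ → ℕ
  | [] => 0
  | c :: cs => c.natAbs + cost cs

/-- the word reading the digits upwards. -/
def P (a t : G) : List ℤ → G
  | [] => 1
  | c :: cs => a ^ c * (t * P a t cs)

theorem P_mem (c : List ℤ) : P a t c ∈ W (gens a t) (cost c + c.length) := by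
  induction c with
  | nil => exact W_one _
  | cons c cs ih =>
    have h1 := W_mul (W_zpow gens_inv (a_mem (a := a) (t := t)) c)
      (W_mul (W_gen (t_mem (a := a) (t := t))) ih)
    unfold P cost
    rw [List.length_cons]
    exact W_mono (by omega) h1

theorem Model.K_P (M : Model G m a t) (c : List ℤ) : M.K (P a t c) = c.length := by
  induction c with
  | nil => simpa [P] using M.K_one
  | cons c cs ih =>
    unfold P
    rw [M.K_mul, M.K_mul, M.K_apow, M.K_t, ih, List.length_cons]
    push_cast; ring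

theorem Model.X_P (M : Model G m a t) (hm : 2 ≤ m) (c : List ℤ) :
    M.X (P a t c) = (ev m c : ℤ) := by
  induction c with
  | nil => simpa [P, ev] using M.X_one
  | cons c cs ih =>
    unfold P ev
    rw [M.X_mul, M.X_mul, M.K_apow, M.X_apow hm, M.X_t, M.K_t, ih]
    push_cast
    simp

theorem Model.up1 (M : Model G m a t) (hm : 2 ≤ m) {l j u : ℕ} {c : List ℤ}
    (hc : c.length = l + j + 1) {g : G} (hX : M.X g = (m : ℚ) ^ (-(l : ℤ)) * (ev m c : ℤ))
    (hK : M.K g = (j : ℤ) - u) :
    g ∈ W (gens a t) (cost c + l + (l + j) + u + 2) := by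
  have e : g = t ^ (-(l : ℤ)) * (P a t c * t ^ (-((u : ℤ) + 1))) := by
    apply M.inj
    · rw [M.X_mul, M.X_mul, M.X_tpow hm, M.X_tpow hm, M.K_tpow, M.X_P hm, hX]
      ring
    · rw [M.K_mul, M.K_mul, M.K_tpow, M.K_tpow, M.K_P, hK, hc]
      push_cast; ring
  rw [e]
  have h1 := W_mul (W_zpow gens_inv (t_mem (a := a) (t := t)) (-(l : ℤ)))
    (W_mul (P_mem (a := a) (t := t) c)
      (W_zpow gens_inv (t_mem (a := a) (t := t)) (-((u : ℤ) + 1))))
  refine W_mono ?_ h1
  rw [hc]
  omega

theorem ev_neg (m : ℕ) (c : List ℤ) : ev m (c.map (fun z => -z)) = - ev m c := by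
  induction c with
  | nil => simp [ev]
  | cons c cs ih => simp only [List.map_cons, ev, ih]; ring

theorem cost_neg (c : List ℤ) : cost (c.map (fun z => -z)) = cost c := by
  induction c with
  | nil => simp [cost]
  | cons c cs ih => simp only [List.map_cons, cost, ih, Int.natAbs_neg]

theorem Model.up2 (M : Model G m a t) (hm : 2 ≤ m) {l j u v : ℕ} {c : List ℤ}
    (hc : c.length = l + j + 1) {g : G} (hX : M.X g = (m : ℚ) ^ (-(l : ℤ)) * (ev m c : ℤ))
    (hK : M.K g = (j : ℤ) - u) (hv : (v : ℤ) = l + M.K g) :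
    g ∈ W (gens a t) (cost c + v + (l + j) + j + 2) := by
  have hm0 : (m : ℚ) ≠ 0 := by positivity
  have hlen : (c.map (fun z => -z)).length = v + u + 1 := by
    rw [List.length_map, hc]; omega
  have hX' : M.X g⁻¹ = (m : ℚ) ^ (-(v : ℤ)) * (ev m (c.map (fun z => -z)) : ℤ) := by
    rw [M.X_inv hm, hX, ev_neg]
    rw [show (-(v : ℤ)) = (- M.K g) + (-(l : ℤ)) by omega, zpow_add₀ hm0]
    push_cast; ring
  have h := M.up1 hm (g := g⁻¹) (u := j) hlen hX' (by rw [M.K_inv]; omega)
  have h2 := W_inv gens_inv h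
  rw [inv_inv, cost_neg] at h2
  exact W_mono (by omega) h2

/-- Digits for two consecutive integers. -/
theorem digits_pair (hm : 2 ≤ m) (n : ℕ) : ∀ Z : ℤ, 0 ≤ Z → Z < (m : ℤ) ^ n →
    ∃ c c' : List ℤ, c.length = n + 1 ∧ c'.length = n + 1 ∧ ev m c = Z ∧ ev m c' = Z + 1 ∧
      cost c + cost c' ≤ n * (m - 1) + 1 := by
  induction n with
  | zero =>
    intro Z h0 h1
    rw [pow_zero] at h1
    have : Z = 0 := by omega
    subst this
    exact ⟨[0], [1], rfl, rfl, by simp [ev], by simp [ev], by simp [cost]⟩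
  | succ n ih =>
    intro Z h0 h1
    have hm0 : (0 : ℤ) < m := by omega
    have hY0 : 0 ≤ Z / m := Int.ediv_nonneg h0 hm0.le
    have hY1 : Z / m < (m : ℤ) ^ n := by
      apply Int.ediv_lt_of_lt_mul hm0
      rw [← pow_succ]; exact h1
    obtain ⟨c, c', hc, hc', e, e', hs⟩ := ih _ hY0 hY1
    have hd0 : 0 ≤ Z % m := Int.emod_nonneg _ hm0.ne'
    have hd1 : Z % m < m := Int.emod_lt_of_pos _ hm0
    have hZ : Z % m + m * (Z / m) = Z := Int.emod_add_mul_ediv Z m
    refine ⟨(Z % m) :: c, (-((m : ℤ) - 1 - Z % m)) :: c', by simp [hc], by simp [hc'], ?_, ?_, ?_⟩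
    · simp only [ev, e]; exact hZ
    · simp only [ev, e']
      linear_combination hZ
    · simp only [cost]
      have h2 : (Z % m).natAbs + (-((m : ℤ) - 1 - Z % m)).natAbs = m - 1 := by omega
      have : (n + 1) * (m - 1) = n * (m - 1) + (m - 1) := by ring
      omega

/-- Digits with few nonzero entries on the average. -/
theorem digits (hm : 2 ≤ m) (n : ℕ) (Z : ℤ) (h0 : 0 ≤ Z) (h1 : Z ≤ (m : ℤ) ^ n) :
    ∃ c : List ℤ, c.length = n + 1 ∧ ev m c = Z ∧ 2 * cost c ≤ n * (m - 1) + 2 := by
  rcases h0.eq_or_lt with h | h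
  · obtain ⟨c, c', hc, hc', e, e', hs⟩ := digits_pair hm n 0 le_rfl (by positivity)
    have : ∃ c : List ℤ, c.length = n + 1 ∧ ev m c = 0 ∧ cost c = 0 := by
      refine ⟨List.replicate (n + 1) 0, by simp, ?_, ?_⟩
      · induction n + 1 with
        | zero => rfl
        | succ k ih => simp [List.replicate_succ, ev, ih]
      · induction n + 1 with
        | zero => rfl
        | succ k ih => simp [List.replicate_succ, cost, ih]
    obtain ⟨c, hc, e, hs⟩ := this
    exact ⟨c, hc, by rw [e, h], by omega⟩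
  · obtain ⟨c, c', hc, hc', e, e', hs⟩ := digits_pair hm n (Z - 1) (by omega) (by omega)
    by_cases hle : 2 * cost c' ≤ n * (m - 1) + 2
    · exact ⟨c', hc', by rw [e']; ring, hle⟩
    · -- use the digits of `Z - 1` and add one
      match c, hc, e, hs with
      | [], hc, _, _ => simp at hc
      | d :: cs, hc, e, hs =>
        refine ⟨(d + 1) :: cs, hc, ?_, ?_⟩
        · simp only [ev] at e ⊢; linarith
        · simp only [cost] at hs ⊢
          have : (d + 1).natAbs ≤ d.natAbs + 1 := by omega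
          omega

theorem digits_abs (hm : 2 ≤ m) (n : ℕ) (Z : ℤ) (h1 : |Z| ≤ (m : ℤ) ^ n) :
    ∃ c : List ℤ, c.length = n + 1 ∧ ev m c = Z ∧ 2 * cost c ≤ n * (m - 1) + 2 := by
  rcases le_total 0 Z with h | h
  · rw [abs_of_nonneg h] at h1
    exact digits hm n Z h h1
  · rw [abs_of_nonpos h] at h1
    obtain ⟨c, hc, e, hs⟩ := digits hm n (-Z) (by omega) h1
    exact ⟨c.map (fun z => -z), by simp [hc], by rw [ev_neg, e, neg_neg], by rw [cost_neg]; exact hs⟩

/-- Adding a top digit. -/
theorem add_top (m : ℕ) (c : List ℤ) (hc : c ≠ []) (N : ℕ) (hN : c.length ≤ N + 1) (d : ℤ) :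
    ∃ c' : List ℤ, c'.length = N + 1 ∧ ev m c' = ev m c + d * m ^ N ∧
      cost c' ≤ cost c + d.natAbs := by
  induction c generalizing N with
  | nil => exact absurd rfl hc
  | cons x xs ih =>
    cases N with
    | zero =>
      have : xs = [] := by
        rw [List.length_cons] at hN
        exact List.length_eq_zero_iff.1 (by omega)
      subst this
      refine ⟨[x + d], rfl, by simp [ev], ?_⟩
      simp only [cost]; omega
    | succ N =>
      by_cases hx : xs = []
      · subst hx
        obtain ⟨c', h1, h2, h3⟩ : ∃ c' : List ℤ, c'.length = N + 1 ∧ ev m c' = d * m ^ N ∧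
            cost c' ≤ d.natAbs := by
          clear ih hN hc
          induction N with
          | zero => exact ⟨[d], rfl, by simp [ev], by simp [cost]⟩
          | succ N ih =>
            obtain ⟨c', h1, h2, h3⟩ := ih
            refine ⟨0 :: c', by simp [h1], ?_, by simpa [cost] using h3⟩
            simp only [ev, h2]; ring
        refine ⟨x :: c', by simp [h1], ?_, ?_⟩
        · simp only [ev, h2]; ring
        · simp only [cost]; omega
      · obtain ⟨c', h1, h2, h3⟩ := ih hx N (by rw [List.length_cons] at hN; omega)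
        refine ⟨x :: c', by simp [h1], ?_, ?_⟩
        · simp only [ev, h2]; ring
        · simp only [cost]; omega

end

end Pool.Agent.X185.RD
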